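import Pool.Agent.Q216.EX.Ten

set_option autoImplicit false

/-!
# MP_1f9c83_co : a deficiency that is not the reciprocal of an integer

There is an extremal `10`-dimensional `(0,1)`-matrix of order `2` with deficiency `2/91`.
-/

namespace Pool.Agent.Results.MP_1f9c83_co.Disproof

open Pool.Agent.Q216.EX

theorem result : ∃ A : Set (Fin 10 → Fin 2), IsExtremal A ∧ HasDeficiency A (2 / 91) ∧
    ∀ m : ℕ, (2 / 91 : ℝ) ≠ 1 / (m : ℝ) := by
  refine ⟨Ten.B, Ten.extremal, Ten.deficiency, fun m h => ?_⟩
  rcases Nat.eq_zero_or_pos m with hm | hm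
  · rw [hm] at h
    norm_num at h
  · have hm' : (0 : ℝ) < m := by exact_mod_cast hm
    have h1 : (2 : ℝ) * m = 91 := by
      field_simp at h
      linarith
    have h2 : 2 * m = 91 := by exact_mod_cast h1
    omega

end Pool.Agent.Results.MP_1f9c83_co.Disproof
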